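import Pool.Agent.H.MP_4ac1fb_an.Full.Exponent

/-!
Classification of the shift-cyclic polynomials in the Dirichlet-type spaces `D_t(D^d)`, for all `d`
and all real `t`.
-/

namespace Pool.Agent.Results.MP_4ac1fb_an.Classification

open MvPolynomial Pool.MP4ac1fb Pool.MP4ac1fb.Full

theorem result {d : ℕ} (P : MvPolynomial (Fin d) ℂ) :
    (∀ t : ℝ, ShiftCyclic t P ↔
      (∀ z : Fin d → ℂ, (∀ j, ‖z j‖ < 1) → eval z P ≠ 0) ∧ GoodPatches t P) ∧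
    ((∀ z : Fin d → ℂ, (∀ j, ‖z j‖ < 1) → eval z P ≠ 0) →
      (∃ z : Fin d → ℂ, (∀ j, ‖z j‖ = 1) ∧ eval z P = 0) →
        ∃ c s : ℕ, 1 ≤ c ∧ c ≤ s ∧ s ≤ d ∧ ∀ t : ℝ, ShiftCyclic t P ↔ t ≤ (c : ℝ) / s) :=
  ⟨fun t => classification t P, critical_exponent P⟩

end Pool.Agent.Results.MP_4ac1fb_an.Classification
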