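import Pool.Agent.H.MP_4ac1fb_an.Products

/-!
Classification of the shift-cyclic polynomials in `D_t(D^d)`, for every `d` and every real `t`,
among the finite products of constant-dominated polynomials.
-/

namespace Pool.Agent.Results.MP_4ac1fb_an.ConstantDominated

open MvPolynomial Pool.MP4ac1fb

theorem result {d : ℕ} {ι : Type} (t : ℝ) (s : Finset ι) (p : ι → MvPolynomial (Fin d) ℂ)
    (hp : ∀ i ∈ s, ConstDominated (p i)) :
    ShiftCyclic t (∏ i ∈ s, p i) ↔
      ∀ i ∈ s, (∀ ζ : Fin d → ℂ, (∀ j, ‖ζ j‖ = 1) → eval ζ (p i) ≠ 0) ∨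
        ∃ J : Finset (Fin d), PosSupp (lattice (p i)) J ∧
          t * (J.card : ℝ) ≤ (rk (lattice (p i)) J : ℝ) := by
  rw [shiftCyclic_prod_iff]
  exact forall₂_congr fun i hi => constDominated_iff t (p i) (hp i hi)

end Pool.Agent.Results.MP_4ac1fb_an.ConstantDominated
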