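import Pool.Agent.H.MP_4ac1fb_an.Toral

/-!
The toral part of a polynomial: an irreducible factor `Q` without zeros in `D^d` and in the exterior
polydisc imposes exactly the condition `t ≤ 1 / (number of variables of Q)`.
-/

namespace Pool.Agent.Results.MP_4ac1fb_an.ToralFactors

open MvPolynomial Pool.MP4ac1fb

theorem result {d : ℕ} (t : ℝ) (A B : MvPolynomial (Fin d) ℂ)
    (hin : ∀ z : Fin d → ℂ, (∀ j, ‖z j‖ < 1) → eval z A ≠ 0)
    (hout : ∀ z : Fin d → ℂ, (∀ j, 1 < ‖z j‖) → eval z A ≠ 0) :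
    ShiftCyclic t (A * B) ↔
      (∀ Q : MvPolynomial (Fin d) ℂ, Irreducible Q → Q ∣ A → t * (Q.vars.card : ℝ) ≤ 1) ∧
        ShiftCyclic t B := by
  rw [shiftCyclic_mul_iff]
  refine and_congr_left' ?_
  have hfac : ∀ Q : MvPolynomial (Fin d) ℂ, Q ∣ A → NZIn Q ∧ NZOut Q := by
    rintro Q ⟨R, hR⟩
    constructor
    · intro z hz h0
      exact hin z hz (by rw [hR, map_mul, h0, zero_mul])
    · intro z hz h0
      exact hout z hz (by rw [hR, map_mul, h0, zero_mul])
  have hA0 : A ≠ 0 := by
    rintro rfl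
    exact hin 0 (by intro j; simp) (map_zero _)
  constructor
  · intro h Q hQ hQA
    obtain ⟨h1, h2⟩ := hfac Q hQA
    rw [← toral_iff t Q hQ h1 h2]
    obtain ⟨R, hR⟩ := hQA
    rw [hR, shiftCyclic_mul_iff] at h
    exact h.1
  · intro h
    have key : ∀ P : MvPolynomial (Fin d) ℂ, P ≠ 0 → P ∣ A → ShiftCyclic t P := by
      intro P hP
      induction P using WfDvdMonoid.induction_on_irreducible with
      | zero => exact absurd rfl hP
      | unit u hu =>
        intro _
        obtain ⟨v, hv⟩ := hu.exists_right_inv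
        have h1 := shiftCyclic_one (d := d) t
        rw [← hv, shiftCyclic_mul_iff] at h1
        exact h1.1
      | mul a i ha hi ih =>
        intro hdvd
        rw [shiftCyclic_mul_iff]
        have hi' : i ∣ A := (dvd_mul_right i a).trans hdvd
        obtain ⟨h1, h2⟩ := hfac i hi'
        exact ⟨(toral_iff t i hi h1 h2).mpr (h i hi hi'),
          ih ha ((dvd_mul_left a i).trans hdvd)⟩
    exact key A hA0 dvd_rfl

end Pool.Agent.Results.MP_4ac1fb_an.ToralFactors
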